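import Mathlib

set_option autoImplicit false

open Polynomial

/-!
Rational curves in the complex projective plane, their multiplicities at the points of the plane, and
the canonical degree of their strict transforms in a blow-up of the plane in finitely many points.
-/

namespace Pool.Agent.W511.Ulmer

/-- A rational curve in the projective plane, given by its normalisation
`t ↦ (P 0 t : P 1 t : P 2 t)`: no common zero, injective outside a finite set. -/
structure RationalCurve where
  P : Fin 3 → ℂ[X]
  noCommonZero : ∀ t : ℂ, ∃ i, (P i).eval t ≠ 0
  birational : ∃ T : Finset ℂ, ∀ t, t ∉ T → ∀ t', t' ∉ T →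
    (∀ i j, (P i).eval t * (P j).eval t' = (P j).eval t * (P i).eval t') → t = t'

namespace RationalCurve

/-- The degree of the curve. -/
noncomputable def deg (K : RationalCurve) : ℕ := Finset.univ.sup fun i => (K.P i).natDegree

/-- The polynomials `v i * P j - v j * P i`; they all vanish at the parameters of the point `v`. -/
noncomputable def minor (K : RationalCurve) (v : Fin 3 → ℂ) (i j : Fin 3) : ℂ[X] :=
  C (v i) * K.P j - C (v j) * K.P i

/-- The multiplicity at the point `v` of the branch of the curve with parameter `t`. -/
noncomputable def branchMult (K : RationalCurve) (v : Fin 3 → ℂ) : OnePoint ℂ → ℕ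
  | none => sSup {k | ∀ i j, X ^ k ∣ (K.minor v i j).reflect K.deg}
  | some t => sSup {k | ∀ i j, (X - C t) ^ k ∣ K.minor v i j}

/-- The multiplicity of the curve at a point of the plane. -/
noncomputable def mult (K : RationalCurve) (p : Projectivization ℂ (Fin 3 → ℂ)) : ℕ :=
  ∑ᶠ t : OnePoint ℂ, K.branchMult p.rep t

/-- The intersection number of the canonical class of the blow-up of the plane in the finite set `S`
with the strict transform of the curve. -/
noncomputable def canonicalDegree (K : RationalCurve)
    (S : Finset (Projectivization ℂ (Fin 3 → ℂ))) : ℤ :=
  ∑ p ∈ S, (K.mult p : ℤ) - 3 * (K.deg : ℤ)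

end RationalCurve

end Pool.Agent.W511.Ulmer
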