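import Mathlib
import Pool.Agent.Helper26.EC.Final
import Pool.Agent.W511.UlmerDefs

set_option autoImplicit false

open Polynomial

namespace Pool.Agent.W511.Ulmer

variable (K : RationalCurve)

theorem natDegree_le_deg (i : Fin 3) : (K.P i).natDegree ≤ K.deg :=
  Finset.le_sup (f := fun i => (K.P i).natDegree) (Finset.mem_univ i)

theorem minor_natDegree_le (v : Fin 3 → ℂ) (i j : Fin 3) : (K.minor v i j).natDegree ≤ K.deg := by
  unfold RationalCurve.minor
  refine (natDegree_sub_le _ _).trans (max_le ?_ ?_)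
  · exact (natDegree_C_mul_le _ _).trans (natDegree_le_deg K j)
  · exact (natDegree_C_mul_le _ _).trans (natDegree_le_deg K i)

/-- some minor is non-zero -/
theorem exists_minor_ne_zero (v : Fin 3 → ℂ) (hv : v ≠ 0) : ∃ i j, K.minor v i j ≠ 0 := by
  by_contra hcon
  push Not at hcon
  obtain ⟨T, hT⟩ := K.birational
  obtain ⟨k, hk⟩ : ∃ k, v k ≠ 0 := by
    by_contra h
    push Not at h
    exact hv (funext h)
  have key : ∀ t t' : ℂ, ∀ i j, (K.P i).eval t * (K.P j).eval t' = (K.P j).eval t * (K.P i).eval t' := by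
    intro t t' i j
    have h1 : ∀ (s : ℂ) (i : Fin 3), (K.P i).eval s = v i / v k * (K.P k).eval s := by
      intro s i
      have := congrArg (eval s) (hcon k i)
      simp only [RationalCurve.minor, eval_sub, eval_mul, eval_C, eval_zero] at this
      field_simp
      linear_combination this
    rw [h1 t i, h1 t' j, h1 t j, h1 t' i]
    ring
  obtain ⟨t, ht⟩ := (T.finite_toSet).exists_notMem (α := ℂ)
  obtain ⟨t', ht'⟩ := ((insert t T).finite_toSet).exists_notMem (α := ℂ)
  have h1 : t ∉ T := fun h => ht h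
  have h2 : t' ∉ T := fun h => ht' (by simp [h])
  have h3 : t' ≠ t := fun h => ht' (by simp [h])
  exact h3 (hT t h1 t' h2 (key t t')).symm

theorem bddAbove_some (v : Fin 3 → ℂ) (hv : v ≠ 0) (t : ℂ) :
    BddAbove {k | ∀ i j, (X - C t) ^ k ∣ K.minor v i j} := by
  obtain ⟨i, j, hij⟩ := exists_minor_ne_zero K v hv
  refine ⟨(K.minor v i j).rootMultiplicity t, ?_⟩
  intro k hk
  exact (le_rootMultiplicity_iff hij).2 (hk i j)

theorem bddAbove_none (v : Fin 3 → ℂ) (hv : v ≠ 0) :
    BddAbove {k | ∀ i j, X ^ k ∣ (K.minor v i j).reflect K.deg} := by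
  obtain ⟨i, j, hij⟩ := exists_minor_ne_zero K v hv
  have h0 : (K.minor v i j).reflect K.deg ≠ 0 := by
    intro h
    apply hij
    rwa [reflect_eq_zero_iff] at h
  refine ⟨((K.minor v i j).reflect K.deg).natDegree, ?_⟩
  intro k hk
  have := natDegree_le_of_dvd (hk i j) h0
  simpa using this

theorem branchMult_eq_zero (v : Fin 3 → ℂ) (t : ℂ) (i j : Fin 3) (hij : K.minor v i j ≠ 0)
    (ht : (K.minor v i j).rootMultiplicity t = 0) : K.branchMult v (some t) = 0 := by
  show sSup {k | ∀ i j, (X - C t) ^ k ∣ K.minor v i j} = 0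
  refine Nat.le_zero.1 (csSup_le' ?_)
  intro k hk
  rw [← ht]
  exact (le_rootMultiplicity_iff hij).2 (hk i j)

theorem rootMultiplicity_le (v : Fin 3 → ℂ) (hv : v ≠ 0) (h : ℂ[X])
    (hdvd : ∀ i j, h ∣ K.minor v i j) (t : ℂ) :
    h.rootMultiplicity t ≤ K.branchMult v (some t) := by
  refine le_csSup (bddAbove_some K v hv t) ?_
  intro i j
  exact (pow_rootMultiplicity_dvd h t).trans (hdvd i j)

theorem le_branchMult_none (v : Fin 3 → ℂ) (hv : v ≠ 0) (k : ℕ)
    (hk : ∀ i j, (K.minor v i j).natDegree + k ≤ K.deg) : k ≤ K.branchMult v none := by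
  refine le_csSup (bddAbove_none K v hv) ?_
  intro i j
  rw [X_pow_dvd_iff]
  intro m hm
  have h1 := hk i j
  rw [coeff_reflect, revAt_le (by omega)]
  exact coeff_eq_zero_of_natDegree_lt (by omega)

theorem finsum_ge (v : Fin 3 → ℂ) (hv : v ≠ 0) (h : ℂ[X]) (hdvd : ∀ i j, h ∣ K.minor v i j) (k : ℕ)
    (hk : ∀ i j, (K.minor v i j).natDegree + k ≤ K.deg) :
    h.natDegree + k ≤ ∑ᶠ t : OnePoint ℂ, K.branchMult v t := by
  classical
  obtain ⟨i, j, hij⟩ := exists_minor_ne_zero K v hv
  set R := (K.minor v i j).roots.toFinset with hR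
  have hsupp : Function.support (K.branchMult v) ⊆
      ((insert OnePoint.infty (R.image (fun t : ℂ => (t : OnePoint ℂ))) :
      Finset (OnePoint ℂ)) : Set (OnePoint ℂ)) := by
    intro t ht
    rw [Function.mem_support] at ht
    rw [Finset.mem_coe, Finset.mem_insert]
    cases t with
    | infty => exact Or.inl rfl
    | coe t =>
      right
      rw [Finset.mem_image]
      refine ⟨t, ?_, rfl⟩
      rw [hR, Multiset.mem_toFinset, mem_roots hij]
      by_contra hroot
      exact ht (branchMult_eq_zero K v t i j hij (rootMultiplicity_eq_zero hroot))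
  rw [finsum_eq_sum_of_support_subset _ hsupp, Finset.sum_insert (by simp)]
  rw [Finset.sum_image (fun a _ b _ h => OnePoint.coe_injective h)]
  have h1 : k ≤ K.branchMult v OnePoint.infty := le_branchMult_none K v hv k hk
  have h2 : h.natDegree ≤ ∑ t ∈ R, K.branchMult v (t : OnePoint ℂ) := by
    have h0 : h ≠ 0 := by
      rintro rfl
      exact hij (zero_dvd_iff.1 (hdvd i j))
    have h3 : h.natDegree = Multiset.card h.roots :=
      (splits_iff_card_roots.1 (IsAlgClosed.splits h)).symm
    have h4 : h.roots.toFinset ⊆ R := by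
      intro t ht
      rw [Multiset.mem_toFinset] at ht
      rw [hR, Multiset.mem_toFinset, mem_roots hij]
      exact (isRoot_of_mem_roots ht).dvd (hdvd i j)
    rw [h3, ← Multiset.toFinset_sum_count_eq]
    refine (Finset.sum_le_sum_of_subset h4).trans (Finset.sum_le_sum fun t _ => ?_)
    rw [count_roots]
    exact rootMultiplicity_le K v hv h hdvd t
  omega

theorem mult_ge (v : Fin 3 → ℂ) (hv : v ≠ 0) (h : ℂ[X]) (hdvd : ∀ i j, h ∣ K.minor v i j) (k : ℕ)
    (hk : ∀ i j, (K.minor v i j).natDegree + k ≤ K.deg) :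
    h.natDegree + k ≤ K.mult (Projectivization.mk ℂ v hv) := by
  obtain ⟨a, ha⟩ := Projectivization.exists_smul_eq_mk_rep ℂ v hv
  have hr : (Projectivization.mk ℂ v hv).rep ≠ 0 := Projectivization.rep_nonzero _
  have hm : ∀ i j, K.minor (Projectivization.mk ℂ v hv).rep i j = C (a : ℂ) * K.minor v i j := by
    intro i j
    rw [← ha]
    simp only [RationalCurve.minor, Units.smul_def, Pi.smul_apply, smul_eq_mul, map_mul]
    ring
  refine finsum_ge K _ hr h (fun i j => ?_) k (fun i j => ?_)
  · rw [hm]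
    exact (hdvd i j).mul_left _
  · rw [hm]
    refine le_trans ?_ (hk i j)
    exact Nat.add_le_add_right (natDegree_C_mul_le _ _) _

end Pool.Agent.W511.Ulmer
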