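import Mathlib
import Pool.Agent.W511.UlmerP2

set_option autoImplicit false

open Polynomial

namespace Pool.Agent.W511.Ulmer

open H26E

/-- Möbius change of the target coordinate: all the points of `S` become affine. -/
theorem affine_data {S : Finset (OnePoint ℂ × OnePoint ℂ)} :
    ∃ (c₁ c₂ : ℂ) (φ : OnePoint ℂ × OnePoint ℂ → ℂ × ℂ), Set.InjOn φ S ∧
      ∀ p ∈ S, ∀ A B G H : ℂ[X],
        (EuclideanDomain.gcd (fib A B p.1) (fib G H p.2)) ∣ (B - C (φ p).1 * (A - C c₁ * B)) ∧
        (EuclideanDomain.gcd (fib A B p.1) (fib G H p.2)) ∣ (H - C (φ p).2 * (G - C c₂ * H)) := by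
  classical
  -- one coordinate
  have one : ∀ F : Finset (OnePoint ℂ), ∃ (c : ℂ) (ψ : OnePoint ℂ → ℂ), Set.InjOn ψ F ∧
      ∀ x ∈ F, ∀ A B : ℂ[X], fib A B x ∣ (B - C (ψ x) * (A - C c * B)) := by
    intro F
    obtain ⟨c, hc⟩ : ∃ c : ℂ, (c : OnePoint ℂ) ∉ F := by
      have : (F.preimage (fun z : ℂ => (z : OnePoint ℂ)) (OnePoint.coe_injective.injOn)).finite_toSet.toFinset.Nonempty
          ∨ True := Or.inr trivial
      obtain ⟨c, hc⟩ := ((F.preimage (fun z : ℂ => (z : OnePoint ℂ))
        (OnePoint.coe_injective.injOn)).finite_toSet).exists_notMem (α := ℂ)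
      exact ⟨c, fun h => hc (by simpa using h)⟩
    refine ⟨c, fun x => match x with
      | none => 0
      | some z => 1 / (z - c), ?_, ?_⟩
    · intro x hx y hy hxy
      cases x with
      | infty =>
        cases y with
        | infty => rfl
        | coe y =>
          exfalso
          have h1 : (0 : ℂ) = 1 / (y - c) := hxy
          have h2 : y - c ≠ 0 := by
            intro h
            apply hc
            have : y = c := by linear_combination h
            rw [← this]; exact hy
          rw [eq_comm, div_eq_zero_iff] at h1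
          rcases h1 with h1 | h1
          · exact one_ne_zero h1
          · exact h2 h1
      | coe x =>
        have hx2 : x - c ≠ 0 := by
            intro h
            apply hc
            have : x = c := by linear_combination h
            rw [← this]; exact hx
        cases y with
        | infty =>
          exfalso
          have h1 : 1 / (x - c) = (0 : ℂ) := hxy
          rw [div_eq_zero_iff] at h1
          rcases h1 with h1 | h1
          · exact one_ne_zero h1
          · exact hx2 h1
        | coe y =>
          have h1 : 1 / (x - c) = 1 / (y - c) := hxy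
          have h2 : y - c ≠ 0 := by
            intro h
            apply hc
            have : y = c := by linear_combination h
            rw [← this]; exact hy
          rw [one_div, one_div, inv_inj] at h1
          have : x = y := by linear_combination h1
          rw [this]
    · intro x hx A B
      cases x with
      | infty =>
        show B ∣ B - C (0 : ℂ) * (A - C c * B)
        simp
      | coe x =>
        have hx2 : x - c ≠ 0 := by
            intro h
            apply hc
            have : x = c := by linear_combination h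
            rw [← this]; exact hx
        show A - C x * B ∣ B - C (1 / (x - c)) * (A - C c * B)
        refine ⟨C (-(1 / (x - c))), ?_⟩
        have e : C (1 / (x - c)) * (C x - C c) = (1 : ℂ[X]) := by
          rw [← C_sub, ← C_mul, one_div, inv_mul_cancel₀ hx2, C_1]
        rw [C_neg]
        linear_combination (-B) * e
  obtain ⟨c₁, ψ₁, h1, h2⟩ := one (S.image Prod.fst)
  obtain ⟨c₂, ψ₂, h3, h4⟩ := one (S.image Prod.snd)
  refine ⟨c₁, c₂, fun p => (ψ₁ p.1, ψ₂ p.2), ?_, ?_⟩
  · intro p hp q hq hpq
    simp only [Prod.mk.injEq] at hpq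
    refine Prod.ext (h1 ?_ ?_ hpq.1) (h3 ?_ ?_ hpq.2)
    all_goals
      simp only [Finset.coe_image, Set.mem_image, Finset.mem_coe]
    · exact ⟨p, hp, rfl⟩
    · exact ⟨q, hq, rfl⟩
    · exact ⟨p, hp, rfl⟩
    · exact ⟨q, hq, rfl⟩
  · intro p hp A B G H
    constructor
    · exact (EuclideanDomain.gcd_dvd_left _ _).trans (h2 p.1 (Finset.mem_image_of_mem _ hp) A B)
    · exact (EuclideanDomain.gcd_dvd_right _ _).trans (h4 p.2 (Finset.mem_image_of_mem _ hp) G H)

theorem dg_moebius (A B : ℂ[X]) (c : ℂ) : dg B (A - C c * B) = dg A B := by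
  have h1 : (A - C c * B).natDegree ≤ max A.natDegree B.natDegree :=
    (natDegree_sub_le _ _).trans (max_le_max le_rfl (natDegree_C_mul_le _ _))
  have h2 : A.natDegree ≤ max B.natDegree (A - C c * B).natDegree := by
    have : A = (A - C c * B) + C c * B := by ring
    calc A.natDegree = ((A - C c * B) + C c * B).natDegree := by rw [← this]
      _ ≤ max (A - C c * B).natDegree (C c * B).natDegree := natDegree_add_le _ _
      _ ≤ max (A - C c * B).natDegree B.natDegree := max_le_max le_rfl (natDegree_C_mul_le _ _)
      _ = _ := max_comm _ _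
  unfold dg
  apply le_antisymm
  · exact max_le (le_max_right _ _) h1
  · exact max_le h2 (le_max_left _ _)

theorem coprime_moebius {A B : ℂ[X]} (h : IsCoprime A B) (c : ℂ) : IsCoprime B (A - C c * B) := by
  have : IsCoprime (A - C c * B) B := by
    have := h.add_mul_left_left (-(C c))
    rw [show A - C c * B = A + B * (-(C c)) by ring]
    exact this
  exact this.symm

theorem genInj_moebius {A B G H : ℂ[X]} (h : GenInj A B G H) (c₁ c₂ : ℂ) :
    GenInj B (A - C c₁ * B) H (G - C c₂ * H) := by
  obtain ⟨T, hT⟩ := h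
  refine ⟨T, fun t ht t' ht' h1 h2 => hT t ht t' ht' ?_ ?_⟩
  · simp only [eval_sub, eval_mul, eval_C] at h1
    linear_combination -h1
  · simp only [eval_sub, eval_mul, eval_C] at h2
    linear_combination -h2

/-- points of the plane -/
theorem vec_ne (x y : ℂ) : (![1, x, y] : Fin 3 → ℂ) ≠ 0 := by
  intro h
  have := congrFun h 0
  simp at this

theorem e1_ne : (![0, 1, 0] : Fin 3 → ℂ) ≠ 0 := by
  intro h
  have := congrFun h 1
  simp at this

theorem e2_ne : (![0, 0, 1] : Fin 3 → ℂ) ≠ 0 := by
  intro h
  have := congrFun h 2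
  simp at this

noncomputable def pt (q : ℂ × ℂ) : Projectivization ℂ (Fin 3 → ℂ) :=
  Projectivization.mk ℂ ![1, q.1, q.2] (vec_ne _ _)

noncomputable def p1 : Projectivization ℂ (Fin 3 → ℂ) := Projectivization.mk ℂ ![0, 1, 0] e1_ne

noncomputable def p2 : Projectivization ℂ (Fin 3 → ℂ) := Projectivization.mk ℂ ![0, 0, 1] e2_ne

theorem pt_inj : Function.Injective pt := by
  intro q r h
  rw [pt, pt, Projectivization.mk_eq_mk_iff'] at h
  obtain ⟨a, ha⟩ := h
  have h0 := congrFun ha 0
  have h1 := congrFun ha 1
  have h2 := congrFun ha 2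
  simp at h0 h1 h2
  subst h0
  simp at h1 h2
  exact Prod.ext h1.symm h2.symm

theorem pt_ne_p1 (q : ℂ × ℂ) : pt q ≠ p1 := by
  intro h
  rw [pt, p1, Projectivization.mk_eq_mk_iff'] at h
  obtain ⟨a, ha⟩ := h
  have h0 := congrFun ha 0
  simp at h0

theorem pt_ne_p2 (q : ℂ × ℂ) : pt q ≠ p2 := by
  intro h
  rw [pt, p2, Projectivization.mk_eq_mk_iff'] at h
  obtain ⟨a, ha⟩ := h
  have h0 := congrFun ha 0
  simp at h0

theorem p1_ne_p2 : p1 ≠ p2 := by
  intro h
  rw [p1, p2, Projectivization.mk_eq_mk_iff'] at h
  obtain ⟨a, ha⟩ := h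
  have h0 := congrFun ha 1
  simp at h0

end Pool.Agent.W511.Ulmer
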