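import Mathlib
import Pool.Agent.W511.UlmerP2b

set_option autoImplicit false

open Polynomial

namespace Pool.Agent.W511.Ulmer

open H26E

/-- the curve in the plane with affine coordinates `A/(g b₁)`, `G/(g b₂)` -/
theorem exists_curve {A G g b₁ b₂ : ℂ[X]} (h1 : IsCoprime A (g * b₁)) (h2 : IsCoprime G (g * b₂))
    (hb : IsCoprime b₁ b₂) (hg0 : g ≠ 0) (hb1 : b₁ ≠ 0) (hb2 : b₂ ≠ 0)
    (hi : GenInj A (g * b₁) G (g * b₂)) :
    ∃ K : RationalCurve, K.P = ![g * b₁ * b₂, A * b₂, G * b₁] := by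
  classical
  refine ⟨⟨![g * b₁ * b₂, A * b₂, G * b₁], ?_, ?_⟩, rfl⟩
  · intro t
    by_contra hcon
    push Not at hcon
    have e0 := hcon 0
    have e1 := hcon 1
    have e2 := hcon 2
    simp only [Matrix.cons_val_zero, Matrix.cons_val_one, Matrix.cons_val_two, Matrix.head_cons,
      Matrix.tail_cons, Matrix.cons_val, eval_mul] at e0 e1 e2
    have cop : ∀ {F E : ℂ[X]}, IsCoprime F E → F.eval t = 0 → E.eval t = 0 → False := by
      rintro F E ⟨u, w, huw⟩ hF hE
      have := congrArg (eval t) huw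
      simp [hF, hE] at this
    rcases mul_eq_zero.1 e1 with hA | hB
    · rcases mul_eq_zero.1 e2 with hG | hB1
      · rcases mul_eq_zero.1 e0 with h | h
        · exact cop h1 hA (by rw [eval_mul]; exact h)
        · exact cop h2 hG (by rw [eval_mul, h, mul_zero])
      · exact cop h1 hA (by rw [eval_mul, hB1, mul_zero])
    · rcases mul_eq_zero.1 e2 with hG | hB1
      · exact cop h2 hG (by rw [eval_mul, hB, mul_zero])
      · exact cop hb hB1 hB
  · obtain ⟨T, hT⟩ := hi
    refine ⟨T ∪ (g * b₁ * b₂).roots.toFinset, fun t ht t' ht' h => ?_⟩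
    rw [Finset.mem_union, not_or] at ht ht'
    have hne : g * b₁ * b₂ ≠ 0 := mul_ne_zero (mul_ne_zero hg0 hb1) hb2
    have ht2 : g.eval t * b₁.eval t * b₂.eval t ≠ 0 := by
      intro h0
      apply ht.2
      rw [Multiset.mem_toFinset, mem_roots hne, IsRoot.def, eval_mul, eval_mul]
      exact h0
    have ht3 : g.eval t' * b₁.eval t' * b₂.eval t' ≠ 0 := by
      intro h0
      apply ht'.2
      rw [Multiset.mem_toFinset, mem_roots hne, IsRoot.def, eval_mul, eval_mul]
      exact h0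
    have k1 := h 0 1
    have k2 := h 0 2
    simp only [Matrix.cons_val_zero, Matrix.cons_val_one, Matrix.cons_val_two, Matrix.head_cons,
      Matrix.tail_cons, Matrix.cons_val, eval_mul] at k1 k2
    have n1 := (mul_ne_zero_iff.1 ht2)
    have n2 := (mul_ne_zero_iff.1 n1.1)
    have m1 := (mul_ne_zero_iff.1 ht3)
    have m2 := (mul_ne_zero_iff.1 m1.1)
    refine hT t ht.1 t' ht'.1 ?_ ?_
    · rw [eval_mul, eval_mul]
      apply mul_left_cancel₀ (mul_ne_zero n1.2 m1.2)
      linear_combination -k1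
    · rw [eval_mul, eval_mul]
      apply mul_left_cancel₀ (mul_ne_zero n2.2 m2.2)
      linear_combination -k2

theorem curve_bound {A G g b₁ b₂ : ℂ[X]} (h1 : IsCoprime A (g * b₁)) (h2 : IsCoprime G (g * b₂))
    (hg0 : g ≠ 0) (hb1 : b₁ ≠ 0) (hb2 : b₂ ≠ 0)
    (hA : A ≠ 0) (hG : G ≠ 0)
    (K : RationalCurve) (hK : K.P = ![g * b₁ * b₂, A * b₂, G * b₁])
    (S : Finset (ℂ × ℂ)) (h : ℂ × ℂ → ℂ[X]) (hS : ∀ p ∈ S, h p ∣ (A - C p.1 * (g * b₁)) ∧
      h p ∣ (G - C p.2 * (g * b₂))) (S' : Finset (Projectivization ℂ (Fin 3 → ℂ)))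
    (hS1 : ∀ q ∈ S, pt q ∈ S') (hp1 : p1 ∈ S') (hp2 : p2 ∈ S') :
    (∑ p ∈ S, ((h p).natDegree : ℤ)) - 2 * dg A (g * b₁) - 2 * dg G (g * b₂) ≤
      K.canonicalDegree S' := by
  classical
  have P0 : K.P 0 = g * b₁ * b₂ := by rw [hK]; rfl
  have P1 : K.P 1 = A * b₂ := by rw [hK]; rfl
  have P2 : K.P 2 = G * b₁ := by rw [hK]; rfl
  have n0 : (K.P 0).natDegree = g.natDegree + b₁.natDegree + b₂.natDegree := by
    rw [P0, natDegree_mul (mul_ne_zero hg0 hb1) hb2, natDegree_mul hg0 hb1]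
  have n1 : (K.P 1).natDegree = A.natDegree + b₂.natDegree := by
    rw [P1, natDegree_mul hA hb2]
  have n2 : (K.P 2).natDegree = G.natDegree + b₁.natDegree := by
    rw [P2, natDegree_mul hG hb1]
  have d0 := natDegree_le_deg K 0
  have d1 := natDegree_le_deg K 1
  have d2 := natDegree_le_deg K 2
  have a1 : dg A (g * b₁) = max A.natDegree (g.natDegree + b₁.natDegree) := by
    unfold dg; rw [natDegree_mul hg0 hb1]
  have a2 : dg G (g * b₂) = max G.natDegree (g.natDegree + b₂.natDegree) := by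
    unfold dg; rw [natDegree_mul hg0 hb2]
  have dup : K.deg ≤ dg A (g * b₁) + dg G (g * b₂) := by
    refine Finset.sup_le fun i _ => ?_
    fin_cases i
    · show (K.P 0).natDegree ≤ _
      rw [n0, a1, a2]; omega
    · show (K.P 1).natDegree ≤ _
      rw [n1, a1, a2]; omega
    · show (K.P 2).natDegree ≤ _
      rw [n2, a1, a2]; omega
  -- multiplicity at p1
  have m1 : K.deg ≤ K.mult p1 + dg G (g * b₂) := by
    have hd : dg G (g * b₂) + b₁.natDegree ≤ K.deg := by
      rw [a2]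
      rcases max_cases G.natDegree (g.natDegree + b₂.natDegree) with ⟨e, -⟩ | ⟨e, -⟩ <;> rw [e] <;> omega
    have := mult_ge K ![0, 1, 0] e1_ne b₁ ?_ (K.deg - (dg G (g * b₂) + b₁.natDegree)) ?_
    · change _ ≤ K.mult p1 at this
      omega
    · intro i j
      fin_cases i <;> fin_cases j <;>
        simp [RationalCurve.minor, P0, P1, P2]
      · exact (Dvd.intro_left g rfl).mul_right b₂
      · exact (Dvd.intro_left g rfl).mul_right b₂
    · intro i j
      have q0 : (K.P 0).natDegree ≤ dg G (g * b₂) + b₁.natDegree := by rw [n0, a2]; omega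
      have q2 : (K.P 2).natDegree ≤ dg G (g * b₂) + b₁.natDegree := by rw [n2, a2]; omega
      fin_cases i <;> fin_cases j <;>
        simp [RationalCurve.minor] <;> omega
  have m2 : K.deg ≤ K.mult p2 + dg A (g * b₁) := by
    have hd : dg A (g * b₁) + b₂.natDegree ≤ K.deg := by
      rw [a1]
      rcases max_cases A.natDegree (g.natDegree + b₁.natDegree) with ⟨e, -⟩ | ⟨e, -⟩ <;> rw [e] <;> omega
    have := mult_ge K ![0, 0, 1] e2_ne b₂ ?_ (K.deg - (dg A (g * b₁) + b₂.natDegree)) ?_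
    · change _ ≤ K.mult p2 at this
      omega
    · intro i j
      fin_cases i <;> fin_cases j <;>
        simp [RationalCurve.minor, P0, P1, P2]
    · intro i j
      have q0 : (K.P 0).natDegree ≤ dg A (g * b₁) + b₂.natDegree := by rw [n0, a1]; omega
      have q2 : (K.P 1).natDegree ≤ dg A (g * b₁) + b₂.natDegree := by rw [n1, a1]; omega
      fin_cases i <;> fin_cases j <;>
        simp [RationalCurve.minor] <;> omega
  -- affine points
  have m3 : ∀ p ∈ S, (h p).natDegree ≤ K.mult (pt p) := by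
    intro p hp
    obtain ⟨k1, k2⟩ := hS p hp
    have := mult_ge K ![1, p.1, p.2] (vec_ne _ _) (h p) ?_ 0 ?_
    · change _ ≤ K.mult (pt p) at this
      simpa using this
    · have e1 : K.minor ![1, p.1, p.2] 0 1 = (A - C p.1 * (g * b₁)) * b₂ := by
        simp [RationalCurve.minor, P0, P1]; ring
      have e2 : K.minor ![1, p.1, p.2] 0 2 = (G - C p.2 * (g * b₂)) * b₁ := by
        simp [RationalCurve.minor, P0, P2]; ring
      have anti : ∀ i j, K.minor ![1, p.1, p.2] i j = - K.minor ![1, p.1, p.2] j i := by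
        intro i j; simp [RationalCurve.minor]
      have diag : ∀ i, K.minor ![1, p.1, p.2] i i = 0 := by
        intro i; simp [RationalCurve.minor]
      have f1 : h p ∣ K.minor ![1, p.1, p.2] 0 1 := by rw [e1]; exact k1.mul_right _
      have f2 : h p ∣ K.minor ![1, p.1, p.2] 0 2 := by rw [e2]; exact k2.mul_right _
      have f3 : h p ∣ K.minor ![1, p.1, p.2] 1 2 := by
        have : K.minor ![1, p.1, p.2] 1 2 = C p.1 * K.minor ![1, p.1, p.2] 0 2
            - C p.2 * K.minor ![1, p.1, p.2] 0 1 := by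
          simp [RationalCurve.minor]; ring
        rw [this]
        exact dvd_sub (f2.mul_left _) (f1.mul_left _)
      intro i j
      fin_cases i <;> fin_cases j
      · exact (diag 0) ▸ dvd_zero _
      · exact f1
      · exact f2
      · show h p ∣ K.minor ![1, p.1, p.2] 1 0
        rw [anti]; exact (dvd_neg).2 f1
      · exact (diag 1) ▸ dvd_zero _
      · exact f3
      · show h p ∣ K.minor ![1, p.1, p.2] 2 0
        rw [anti]; exact (dvd_neg).2 f2
      · show h p ∣ K.minor ![1, p.1, p.2] 2 1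
        rw [anti]; exact (dvd_neg).2 f3
      · exact (diag 2) ▸ dvd_zero _
    · intro i j
      exact minor_natDegree_le K _ i j
  have hsum : ∑ p ∈ S, (h p).natDegree + K.mult p1 + K.mult p2 ≤ ∑ p ∈ S', K.mult p := by
    have hS' : S.image pt ∪ {p1, p2} ⊆ S' := by
      intro q hq
      rw [Finset.mem_union, Finset.mem_image, Finset.mem_insert, Finset.mem_singleton] at hq
      rcases hq with ⟨r, hr, rfl⟩ | rfl | rfl
      · exact hS1 r hr
      · exact hp1
      · exact hp2
    refine le_trans ?_ (Finset.sum_le_sum_of_subset hS')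
    have hdisj : Disjoint (S.image pt) ({p1, p2} : Finset (Projectivization ℂ (Fin 3 → ℂ))) := by
      rw [Finset.disjoint_left]
      intro q hq hq'
      rw [Finset.mem_image] at hq
      obtain ⟨r, -, rfl⟩ := hq
      rw [Finset.mem_insert, Finset.mem_singleton] at hq'
      rcases hq' with e | e
      · exact pt_ne_p1 r e
      · exact pt_ne_p2 r e
    rw [Finset.sum_union hdisj, Finset.sum_pair p1_ne_p2,
      Finset.sum_image (fun a _ b _ e => pt_inj e)]
    have := Finset.sum_le_sum m3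
    omega
  unfold RationalCurve.canonicalDegree
  have hs2 : (∑ p ∈ S, ((h p).natDegree : ℤ)) + K.mult p1 + K.mult p2 ≤ ∑ p ∈ S', (K.mult p : ℤ) := by
    exact_mod_cast hsum
  have m1' : (K.deg : ℤ) ≤ K.mult p1 + dg G (g * b₂) := by exact_mod_cast m1
  have m2' : (K.deg : ℤ) ≤ K.mult p2 + dg A (g * b₁) := by exact_mod_cast m2
  have dup' : (K.deg : ℤ) ≤ dg A (g * b₁) + dg G (g * b₂) := by exact_mod_cast dup
  linarith

theorem final (S₀ : Finset (Projectivization ℂ (Fin 3 → ℂ))) :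
    ∃ S : Finset (Projectivization ℂ (Fin 3 → ℂ)), S₀ ⊆ S ∧
      ∀ n : ℕ, ∃ K : RationalCurve, (n : ℤ) ≤ K.canonicalDegree S := by
  classical
  obtain ⟨F, -, hF⟩ := H26E.main ∅
  obtain ⟨c₁, c₂, φ, hφ, hdv⟩ := affine_data (S := F)
  refine ⟨S₀ ∪ ((F.image φ).image pt ∪ {p1, p2}), Finset.subset_union_left, fun n => ?_⟩
  obtain ⟨A, B, G, H, c1, c2, e1, e2, hi, hsum⟩ := hF n
  have i1 := coprime_moebius c1 c₁
  have i2 := coprime_moebius c2 c₂
  have i3 := genInj_moebius hi c₁ c₂
  have j1 := dg_moebius A B c₁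
  have j2 := dg_moebius G H c₂
  set D₁ := A - C c₁ * B with hD1
  set D₂ := G - C c₂ * H with hD2
  -- nonvanishing
  have nz : ∀ {E D : ℂ[X]}, IsCoprime E D → 0 < dg E D → E ≠ 0 ∧ D ≠ 0 := by
    intro E D hc hd
    constructor
    · rintro rfl
      rw [isCoprime_zero_left] at hc
      have := natDegree_eq_zero_of_isUnit hc
      unfold dg at hd
      simp [this] at hd
    · rintro rfl
      rw [isCoprime_zero_right] at hc
      have := natDegree_eq_zero_of_isUnit hc
      unfold dg at hd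
      simp [this] at hd
  obtain ⟨z1, z2⟩ := nz i1 (by rw [j1]; exact e1)
  obtain ⟨z3, z4⟩ := nz i2 (by rw [j2]; exact e2)
  obtain ⟨b₁, hb1⟩ := EuclideanDomain.gcd_dvd_left D₁ D₂
  obtain ⟨b₂, hb2⟩ := EuclideanDomain.gcd_dvd_right D₁ D₂
  set g := EuclideanDomain.gcd D₁ D₂ with hg
  have hg0 : g ≠ 0 := by
    intro h0
    rw [h0, zero_mul] at hb1
    exact z2 hb1
  have b1z : b₁ ≠ 0 := by
    rintro rfl
    rw [mul_zero] at hb1
    exact z2 hb1
  have b2z : b₂ ≠ 0 := by
    rintro rfl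
    rw [mul_zero] at hb2
    exact z4 hb2
  have hcop : IsCoprime b₁ b₂ := by
    have hbez := EuclideanDomain.gcd_eq_gcd_ab D₁ D₂
    rw [← hg] at hbez
    refine ⟨EuclideanDomain.gcdA D₁ D₂, EuclideanDomain.gcdB D₁ D₂, ?_⟩
    apply mul_left_cancel₀ hg0
    rw [mul_one]
    have t1 : g * (EuclideanDomain.gcdA D₁ D₂ * b₁ + EuclideanDomain.gcdB D₁ D₂ * b₂) =
      (g * b₁) * EuclideanDomain.gcdA D₁ D₂ + (g * b₂) * EuclideanDomain.gcdB D₁ D₂ := by ring
    rw [t1, ← hb1, ← hb2]
    exact hbez.symm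
  rw [hb1] at i1 i3
  rw [hb2] at i2 i3
  obtain ⟨K, hK⟩ := exists_curve i1 i2 hcop hg0 b1z b2z i3
  refine ⟨K, ?_⟩
  -- choose inverse of φ on F
  choose! ψ hψ using fun (q : ℂ × ℂ) (hq : q ∈ F.image φ) => Finset.mem_image.1 hq
  have hb := curve_bound i1 i2 hg0 b1z b2z z1 z3 K hK (F.image φ)
    (fun q => EuclideanDomain.gcd (fib A B (ψ q).1) (fib G H (ψ q).2)) ?_
    (S₀ ∪ ((F.image φ).image pt ∪ {p1, p2})) ?_ ?_ ?_
  · refine le_trans ?_ hb
    rw [← hb1, ← hb2, j1, j2, Finset.sum_image hφ]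
    have hs : ∑ x ∈ F, ((EuclideanDomain.gcd (fib A B (ψ (φ x)).1) (fib G H (ψ (φ x)).2)).natDegree : ℤ)
        = ∑ x ∈ F, (mlt A B G H x : ℤ) := by
      refine Finset.sum_congr rfl fun x hx => ?_
      have hx' : φ x ∈ F.image φ := Finset.mem_image_of_mem φ hx
      have : ψ (φ x) = x := hφ (hψ _ hx').1 hx (hψ _ hx').2
      rw [this]
      rfl
    rw [hs]
    have : ((2 * dg A B + 2 * dg G H + n : ℕ) : ℤ) ≤ ((∑ p ∈ F, mlt A B G H p : ℕ) : ℤ) := by
      exact_mod_cast hsum
    push_cast at this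
    linarith
  · intro q hq
    obtain ⟨hq1, hq2⟩ := hψ q hq
    have := hdv (ψ q) hq1 A B G H
    rw [hq2] at this
    rw [← hb1, ← hb2]
    exact this
  · intro q hq
    exact Finset.mem_union_right _ (Finset.mem_union_left _ (Finset.mem_image_of_mem _ hq))
  · exact Finset.mem_union_right _ (Finset.mem_union_right _ (by simp))
  · exact Finset.mem_union_right _ (Finset.mem_union_right _ (by simp))

end Pool.Agent.W511.Ulmer
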