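import Pool.Agent.W982.TA.Grid

set_option autoImplicit false

namespace Pool.Agent.W982.TA

namespace W511J1

lemma ty_lt (φ : List Cl) (i j : ℕ) : ty φ i j < 8 := by
  unfold ty
  split_ifs <;> norm_num

lemma pat_sides {t : ℕ} {P : List ℕ} (h : patOK t P = true) :
    (∀ y : ℕ, y < 62 → missP P (0, (y : ℤ)) = hrL t y ∧ missP P (63, (y : ℤ)) = hrR t y) ∧
    (∀ x : ℕ, x < 64 → missP P ((x : ℤ), 0) = vcB t x ∧ missP P ((x : ℤ), 61) = vcT t x) := by
  unfold patOK at h
  simp only [Bool.and_eq_true, List.all_eq_true, List.mem_range, decide_eq_true_eq,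
    beq_iff_eq] at h
  exact ⟨fun y hy => h.1.2 y hy, fun x hx => h.2 x hx⟩

lemma hrL_lt {t y : ℕ} (h : hrL t y = true) : y < 62 := by
  unfold hrL at h
  split_ifs at h <;> simp at h <;> omega

lemma hrR_lt {t y : ℕ} (h : hrR t y = true) : y < 62 := by
  unfold hrR at h
  split_ifs at h <;> simp at h <;> omega

lemma vcB_lt {t x : ℕ} (h : vcB t x = true) : x < 64 := by
  unfold vcB at h
  split_ifs at h <;> simp at h <;> omega

lemma vcT_lt {t x : ℕ} (h : vcT t x = true) : x < 64 := by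
  unfold vcT at h
  split_ifs at h <;> simp at h <;> omega

lemma hrR_pair {t y : ℕ} (h : hrR t y = true) :
    hrR t (y + 1) = true ∨ (1 ≤ y ∧ hrR t (y - 1) = true) := by
  unfold hrR at h ⊢
  split_ifs at h ⊢ <;> simp at h ⊢ <;> omega

lemma vcT_pair {t x : ℕ} (h : vcT t x = true) :
    vcT t (x + 1) = true ∨ (1 ≤ x ∧ vcT t (x - 1) = true) := by
  unfold vcT at h ⊢
  split_ifs at h ⊢ <;> simp at h ⊢ <;> omega

lemma hr_eq (φ : List Cl) (i j y : ℕ) (h : hrR (ty φ i j) y = true) :
    hrL (ty φ i (j + 1)) y = true := by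
  have hj : j + 1 ≠ 0 := by omega
  unfold ty at h ⊢
  rw [if_neg hj]
  by_cases h0 : j = 0
  · rw [if_pos h0] at h
    by_cases hi : i = 0
    · rw [if_pos hi] at h ⊢
      simpa [hrR, hrL] using h
    · rw [if_neg hi] at h ⊢
      by_cases hn : i = nR φ - 1
      · rw [if_pos hn] at h ⊢
        simpa [hrR, hrL] using h
      · rw [if_neg hn] at h ⊢
        split_ifs at h ⊢ <;> simpa [hrR, hrL] using h
  · rw [if_neg h0] at h
    by_cases hi : i = 0
    · rw [if_pos hi] at h ⊢
      simpa [hrR, hrL] using h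
    · rw [if_neg hi] at h ⊢
      by_cases hn : i = nR φ - 1
      · rw [if_pos hn] at h ⊢
        simpa [hrR, hrL] using h
      · rw [if_neg hn] at h ⊢
        split_ifs at h ⊢ <;> simpa [hrR, hrL] using h

lemma vc_eq (φ : List Cl) (hφ : φ ≠ []) (i j x : ℕ) (hi1 : i + 1 < nR φ)
    (h : vcT (ty φ i j) x = true) :
    vcB (ty φ (i + 1) j) x = true := by
  have hlen : 1 ≤ φ.length := List.length_pos_iff.mpr hφ
  have hi' : i + 1 ≠ 0 := by omega
  have hin : i ≠ nR φ - 1 := by omega
  unfold ty at h ⊢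
  rw [if_neg hi']
  by_cases h0 : j = 0
  · rw [if_pos h0] at h ⊢
    by_cases hi : i = 0
    · rw [if_pos hi] at h
      have h1 : ¬ (i + 1 = nR φ - 1) := by
        unfold nR; omega
      rw [if_neg h1, if_pos (by omega : (i + 1) % 2 = 1)]
      simpa [vcT, vcB] using h
    · rw [if_neg hi, if_neg hin] at h
      by_cases hodd : i % 2 = 1
      · rw [if_pos hodd] at h
        have h1 : ¬ (i + 1 = nR φ - 1) := by
          unfold nR; omega
        rw [if_neg h1, if_neg (by omega : ¬ (i + 1) % 2 = 1)]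
        simpa [vcT, vcB] using h
      · rw [if_neg hodd] at h
        by_cases hn : i + 1 = nR φ - 1
        · rw [if_pos hn]
          simpa [vcT, vcB] using h
        · rw [if_neg hn, if_pos (by omega : (i + 1) % 2 = 1)]
          simpa [vcT, vcB] using h
  · rw [if_neg h0] at h ⊢
    rw [if_neg hi']
    by_cases hi : i = 0
    · rw [if_pos hi] at h
      split_ifs <;> simpa [vcT, vcB] using h
    · rw [if_neg hi, if_neg hin] at h
      split_ifs at h ⊢ <;> simpa [vcT, vcB] using h

section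
variable (h1 : TaskI1) (hP : PatsOK) (φ : List Cl)
include h1 hP

lemma memR {i j y : ℕ} (hi : i < nR φ) (hj : j < nC φ) (h : hrR (ty φ i j) y = true) :
    ((64 * (j : ℤ) + 63, 62 * (i : ℤ) + y) : Pt) ∈ Mset φ := by
  rw [h1 hP]
  have hy := hrR_lt h
  refine ⟨i, hi, j, hj, 63, by norm_num, y, hy, ?_, by norm_num⟩
  have := ((pat_sides (hP _ (ty_lt φ i j))).1 y hy).2
  rw [h] at this
  exact_mod_cast this

lemma memL {i j y : ℕ} (hi : i < nR φ) (hj : j < nC φ) (h : hrL (ty φ i j) y = true) :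
    ((64 * (j : ℤ), 62 * (i : ℤ) + y) : Pt) ∈ Mset φ := by
  rw [h1 hP]
  have hy := hrL_lt h
  refine ⟨i, hi, j, hj, 0, by norm_num, y, hy, ?_, by norm_num⟩
  have := ((pat_sides (hP _ (ty_lt φ i j))).1 y hy).1
  rw [h] at this
  exact_mod_cast this

lemma memT {i j x : ℕ} (hi : i < nR φ) (hj : j < nC φ) (h : vcT (ty φ i j) x = true) :
    ((64 * (j : ℤ) + x, 62 * (i : ℤ) + 61) : Pt) ∈ Mset φ := by
  rw [h1 hP]
  have hx := vcT_lt h
  refine ⟨i, hi, j, hj, x, hx, 61, by norm_num, ?_, by norm_num⟩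
  have := ((pat_sides (hP _ (ty_lt φ i j))).2 x hx).2
  rw [h] at this
  exact_mod_cast this

lemma memB {i j x : ℕ} (hi : i < nR φ) (hj : j < nC φ) (h : vcB (ty φ i j) x = true) :
    ((64 * (j : ℤ) + x, 62 * (i : ℤ)) : Pt) ∈ Mset φ := by
  rw [h1 hP]
  have hx := vcB_lt h
  refine ⟨i, hi, j, hj, x, hx, 0, by norm_num, ?_, by norm_num⟩
  have := ((pat_sides (hP _ (ty_lt φ i j))).2 x hx).1
  rw [h] at this
  exact_mod_cast this

end

end W511J1

open W511J1 in
theorem j1 (h11 : TaskS11) (h1 : TaskI1) : TaskJ1 := by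
  intro hP φ e hφ hM
  constructor
  · intro i hi j hj y hy
    have hyL := hr_eq φ i j y hy
    have hj0 : j < nC φ := by omega
    have hp := memR h1 hP φ hi hj0 hy
    have hq := memL h1 hP φ hi hj hyL
    have hqe : ((64 * (j : ℤ) + 63 + 1, 62 * (i : ℤ) + y) : Pt) =
        (64 * ((j + 1 : ℕ) : ℤ), 62 * (i : ℤ) + y) := by
      push_cast; ring_nf
    have hpe : ((64 * ((j + 1 : ℕ) : ℤ) - 1, 62 * (i : ℤ) + y) : Pt) =
        (64 * (j : ℤ) + 63, 62 * (i : ℤ) + y) := by
      push_cast; ring_nf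
    refine h11 _ _ _ e _ _ hM hp hq (Or.inl ?_) ?_ (Or.inr ?_) ?_ ?_
    · show ((64 * (j : ℤ) + 63 + 1, 62 * (i : ℤ) + y) : Pt) ∈ Mset φ
      rw [hqe]; exact hq
    · rcases hrR_pair hy with h | ⟨hy1, h⟩
      · left
        have := memR h1 hP φ hi hj0 h
        push_cast at this
        rw [← add_assoc] at this
        exact this
      · right
        have := memR h1 hP φ hi hj0 h
        rw [Nat.cast_sub hy1] at this
        push_cast at this
        rw [← add_sub_assoc] at this
        exact this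
    · show ((64 * ((j + 1 : ℕ) : ℤ) - 1, 62 * (i : ℤ) + y) : Pt) ∈ Mset φ
      rw [hpe]; exact hp
    · rcases hrR_pair hy with h | ⟨hy1, h⟩
      · left
        have := memL h1 hP φ hi hj (hr_eq φ i j _ h)
        rw [Nat.cast_add y 1, Nat.cast_one, ← add_assoc] at this
        exact this
      · right
        have := memL h1 hP φ hi hj (hr_eq φ i j _ h)
        rw [Nat.cast_sub hy1, Nat.cast_one, ← add_sub_assoc] at this
        exact this
    · unfold adjC
      simp only [Bool.or_eq_true, Bool.and_eq_true, decide_eq_true_eq]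
      right
      refine ⟨trivial, Or.inr ?_⟩
      push_cast; ring
  · intro i hi j hj x hx
    have hxB := vc_eq φ hφ i j x hi hx
    have hi0 : i < nR φ := by omega
    have hp := memT h1 hP φ hi0 hj hx
    have hq := memB h1 hP φ hi hj hxB
    have hqe : ((64 * (j : ℤ) + x, 62 * (i : ℤ) + 61 + 1) : Pt) =
        (64 * (j : ℤ) + x, 62 * ((i + 1 : ℕ) : ℤ)) := by
      push_cast; ring_nf
    have hpe : ((64 * (j : ℤ) + x, 62 * ((i + 1 : ℕ) : ℤ) - 1) : Pt) =
        (64 * (j : ℤ) + x, 62 * (i : ℤ) + 61) := by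
      push_cast; ring_nf
    refine h11 _ _ _ e _ _ hM hp hq ?_ (Or.inl ?_) ?_ (Or.inr ?_) ?_
    · rcases vcT_pair hx with h | ⟨hx1, h⟩
      · left
        have := memT h1 hP φ hi0 hj h
        rw [Nat.cast_add x 1, Nat.cast_one, ← add_assoc] at this
        exact this
      · right
        have := memT h1 hP φ hi0 hj h
        rw [Nat.cast_sub hx1, Nat.cast_one, ← add_sub_assoc] at this
        exact this
    · show ((64 * (j : ℤ) + x, 62 * (i : ℤ) + 61 + 1) : Pt) ∈ Mset φ
      rw [hqe]; exact hq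
    · rcases vcT_pair hx with h | ⟨hx1, h⟩
      · left
        have := memB h1 hP φ hi hj (vc_eq φ hφ i j _ hi h)
        rw [Nat.cast_add x 1, Nat.cast_one, ← add_assoc] at this
        exact this
      · right
        have := memB h1 hP φ hi hj (vc_eq φ hφ i j _ hi h)
        rw [Nat.cast_sub hx1, Nat.cast_one, ← add_sub_assoc] at this
        exact this
    · show ((64 * (j : ℤ) + x, 62 * ((i + 1 : ℕ) : ℤ) - 1) : Pt) ∈ Mset φ
      rw [hpe]; exact hp
    · unfold adjC
      simp only [Bool.or_eq_true, Bool.and_eq_true, decide_eq_true_eq]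
      left
      refine ⟨trivial, Or.inr ?_⟩
      push_cast; ring

end Pool.Agent.W982.TA
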